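import Pool.Agent.MP_ebd0f7_an.DyAtt

/-! The best constant is itself admissible. -/

namespace Pool.Agent.Results.MP_ebd0f7_an.Attained

open Set MeasureTheory Pool.Agent.MP_ebd0f7_an

theorem mono {c c' : ℝ} {E : Set ℝ} {δ : ℝ → ℝ} (h : Good c E δ) (hc : c' ≤ c) : Good c' E δ := by
  obtain ⟨T, h1, h2, h3, h4⟩ := h
  exact ⟨T, h1, h2, h3, le_trans (by gcongr) h4⟩

theorem fin {c c' : ℝ} {E : Set ℝ} {δ : ℝ → ℝ} (hE : IsCompact E) (hp : ∀ x ∈ E, 0 < δ x)
    (h : Good c E δ) (hc : c' < c) :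
    ∃ F : Finset ℝ, ↑F ⊆ E ∧ Dis δ F ∧ c' * (volume E).toReal ≤ ∑ x ∈ F, 2 * δ x := by
  classical
  have hf : volume E ≠ ⊤ := hE.measure_lt_top.ne
  rcases le_or_gt (c' * (volume E).toReal) 0 with h0 | h0
  · exact ⟨∅, by simp, sep_empty _ _, by simpa using h0⟩
  obtain ⟨c0, V0⟩ : 0 < c' ∧ 0 < (volume E).toReal :=
    (pos_and_pos_or_neg_and_neg_of_mul_pos h0).resolve_right fun h =>
      absurd h.2 (not_lt.2 ENNReal.toReal_nonneg)
  obtain ⟨T, h1, -, h3, h4⟩ := h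
  have h5 : ENNReal.ofReal (c' * (volume E).toReal) <
      ∑' x : T, volume (Ioo (x - δ x) (x + δ x) : Set ℝ) := by
    refine lt_of_lt_of_le ?_ h4
    conv_rhs => rw [← ENNReal.ofReal_toReal hf, ← ENNReal.ofReal_mul (c0.trans hc).le]
    exact (ENNReal.ofReal_lt_ofReal_iff (mul_pos (c0.trans hc) V0)).2
      (mul_lt_mul_of_pos_right hc V0)
  rw [ENNReal.tsum_eq_iSup_sum, lt_iSup_iff] at h5
  obtain ⟨s, hs⟩ := h5
  have hs' : ∀ x ∈ s.image Subtype.val, x ∈ T := fun x hx => by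
    obtain ⟨y, -, rfl⟩ := Finset.mem_image.1 hx
    exact y.2
  refine ⟨s.image Subtype.val, fun x hx => h1 (hs' x hx), fun x hx y hy hxy => ?_, ?_⟩
  · have a := hp x (h1 (hs' x hx))
    have b := hp y (h1 (hs' y hy))
    have d : Disjoint _ _ := h3 (hs' x hx) (hs' y hy) hxy
    rw [Ioo_disjoint_Ioo, min_le_iff, le_max_iff, le_max_iff] at d
    rcases d with (d | d) | d | d
    · linarith
    · exact Or.inl d
    · exact Or.inr d
    · linarith
  · rw [Finset.sum_image fun _ _ _ _ e => Subtype.ext e]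
    simp only [vol_I] at hs
    rw [← ENNReal.ofReal_sum_of_nonneg fun x _ => by linarith [hp x (h1 x.2)]] at hs
    exact ((ENNReal.ofReal_lt_ofReal_iff_of_nonneg h0.le).1 hs).le

theorem result (L : Set ℝ) (a b : ℝ) (ha : a ∈ L) (hb : b ∈ L) (h0 : 0 < a) (hab : a < b) :
    ∃ c₁ : ℝ, (Adm fun E δ => ∀ x ∈ E, δ x ∈ L) = Iic c₁ := by
  have up : ∀ c ∈ Adm fun E δ => ∀ x ∈ E, δ x ∈ L, c ≤ max (2 * a) b / (a + b) := fun c hc =>
    Dy.le_pair ha hb h0 hab.le (le_max_left _ _) (le_max_right _ _) hc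
  have ne : (Adm fun E δ => ∀ x ∈ E, δ x ∈ L).Nonempty :=
    ⟨0, fun E δ _ _ _ => ⟨∅, empty_subset _, countable_empty, pairwiseDisjoint_empty, by simp⟩⟩
  refine ⟨sSup _, Subset.antisymm (fun c hc => le_csSup ⟨_, up⟩ hc) fun c hc E δ hE hp h => ?_⟩
  refine mono (Dy.good_lim ((csSup_le ne up).trans_lt ?_) (fun c' h' E δ hE hp h => ?_) hE hp h) hc
  · rw [div_lt_one (by linarith), max_lt_iff]
    constructor <;> linarith
  · obtain ⟨c, h1, h2⟩ := exists_lt_of_lt_csSup ne h'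
    exact fin hE hp (h1 E δ hE hp h) h2

/-- The case of unrestricted radii. -/
theorem unrestricted : ∃ c₁ : ℝ, (Adm fun _ _ => True) = Iic c₁ := by
  simpa using result univ 1 2 trivial trivial one_pos one_lt_two

end Pool.Agent.Results.MP_ebd0f7_an.Attained
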