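import Pool.Agent.MP_ebd0f7_an.DyAtt

/-! Radii of ratio at least two, dyadic radii included: the best constant is exactly `2 / 3`. -/

namespace Pool.Agent.Results.MP_ebd0f7_an.Dyadic

open Set Pool.Agent.MP_ebd0f7_an

theorem result (L : Set ℝ) (hL : ∀ x ∈ L, ∀ y ∈ L, x < y → 2 * x ≤ y) (a : ℝ) (ha : 0 < a)
    (h1 : a ∈ L) (h2 : 2 * a ∈ L) : IsGreatest (Adm fun E δ => ∀ x ∈ E, δ x ∈ L) (2 / 3) := by
  refine ⟨fun E δ hE hp h => ?_, fun c hc => ?_⟩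
  · have := Dy.good_lac (k := 1 / 2) (by norm_num) (by norm_num)
      (fun x hx y hy hxy => by linarith [hL x hx y hy hxy]) hE hp h
    rwa [show (1 : ℝ) / (1 + 1 / 2) = 2 / 3 by norm_num] at this
  · have := Dy.le_pair h1 h2 ha (by linarith) le_rfl le_rfl hc
    rwa [show 2 * a / (a + 2 * a) = 2 / 3 by field_simp; ring] at this

/-- The case of dyadic radii. -/
theorem dyadic : IsGreatest (Adm fun E δ => ∀ x ∈ E, δ x ∈ {r : ℝ | ∃ k : ℤ, r = 2 ^ k}) (2 / 3) := by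
  refine result _ ?_ 1 one_pos ⟨0, by simp⟩ ⟨1, by simp⟩
  rintro _ ⟨i, rfl⟩ _ ⟨j, rfl⟩ hij
  have a1 : i + 1 ≤ j := (zpow_lt_zpow_iff_right₀ (one_lt_two (α := ℝ))).1 hij
  have a2 := zpow_le_zpow_right₀ (one_le_two (α := ℝ)) a1
  rw [zpow_add_one₀ two_ne_zero] at a2
  linarith

end Pool.Agent.Results.MP_ebd0f7_an.Dyadic
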