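import Pool.Agent.MP_ebd0f7_an.LacLevel
import Pool.Agent.MP_ebd0f7_an.LacEx

/-! Radii from an infinite `ρ`-lacunary set: the best constant lies in `[4ρ/(5ρ+3), 4/5]`. -/

namespace Pool.Agent.Results.MP_ebd0f7_an.Lacunary

open Set Pool.Agent.MP_ebd0f7_an

theorem result (L : Set ℝ) (ρ : ℝ) (hp : ∀ x ∈ L, 0 < x) (hi : L.Infinite) (hρ : 1 < ρ)
    (hL : ∀ x ∈ L, ∀ y ∈ L, x < y → ρ * x ≤ y) :
    ∃ c ∈ Icc (4 * ρ / (5 * ρ + 3)) (4 / 5), IsLUB (Adm fun E δ => ∀ x ∈ E, δ x ∈ L) c := by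
  have h1 : Iio (4 * ρ / (5 * ρ + 3)) ⊆ Adm fun E δ => ∀ x ∈ E, δ x ∈ L :=
    fun _ hc _ _ hE h1 h2 => Lac.good_lac hρ hL hc hE h1 h2
  have h2 : 4 / 5 ∈ upperBounds (Adm fun E δ => ∀ x ∈ E, δ x ∈ L) :=
    fun _ hc => Lac.le_lac hp hi hρ hL hc
  have h3 := isLUB_csSup (nonempty_Iio.mono h1) ⟨_, h2⟩
  exact ⟨_, ⟨isLUB_Iio.2 fun _ hc => h3.1 (h1 hc), h3.2 h2⟩, h3⟩

end Pool.Agent.Results.MP_ebd0f7_an.Lacunary
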