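import Pool.Agent.MP_ebd0f7_an.RRTwo
import Pool.Agent.MP_ebd0f7_an.RREx

/-! Radii with at most two values `a ≤ b ≤ R a`: the best constant is `2 / (1 + min R 2)`. -/

namespace Pool.Agent.Results.MP_ebd0f7_an.TwoRadii

open Set Pool.Agent.MP_ebd0f7_an

theorem result (R : ℝ) (hR : 1 ≤ R) :
    IsGreatest (Adm fun E δ => ∃ a b : ℝ, a ≤ b ∧ b ≤ R * a ∧ ∀ x ∈ E, δ x = a ∨ δ x = b)
      (2 / (1 + min R 2)) := by
  refine ⟨fun E δ hE hp ⟨a, b, hab, hb, h⟩ => ?_, fun c hc => ?_⟩
  · rcases E.eq_empty_or_nonempty with rfl | ⟨x, hx⟩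
    · exact ⟨∅, subset_rfl, countable_empty, pairwiseDisjoint_empty, by simp⟩
    have ha : 0 < a := by
      have := hp x hx
      rcases h x hx with e | e <;> nlinarith
    rcases le_total R 2 with h2 | h2
    · rw [min_eq_left h2]
      obtain ⟨T, h3, h4, h5, h6⟩ := good_ratio (ρ := b / a) ha ((one_le_div ha).2 hab) hE
        (by rwa [div_mul_cancel₀ _ ha.ne'])
      refine ⟨T, h3, h4, h5, le_trans (mul_le_mul_left (ENNReal.ofReal_le_ofReal ?_) _) h6⟩
      exact div_le_div_of_nonneg_left (by norm_num) (by have := div_pos (ha.trans_le hab) ha; linarith)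
        (by linarith [(div_le_iff₀ ha).2 hb])
    · rw [min_eq_right h2, show (1 + 2 : ℝ) = 3 by norm_num]
      exact good_two ha hab hE h
  · refine ex_two (le_min hR one_le_two) (min_le_right _ _) fun E δ hE hp ⟨a, h⟩ => ?_
    rcases E.eq_empty_or_nonempty with rfl | ⟨x, hx⟩
    · exact ⟨∅, subset_rfl, countable_empty, pairwiseDisjoint_empty, by simp⟩
    have h1 : 1 ≤ min R 2 := le_min hR one_le_two
    have ha : 0 < a := by
      have := hp x hx
      rcases h x hx with e | e <;> nlinarith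
    exact hc E δ hE hp ⟨a, _, by nlinarith, by nlinarith [min_le_left R 2], h⟩

end Pool.Agent.Results.MP_ebd0f7_an.TwoRadii
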